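import Pool.Agent.Results.MP_bbe012_lc.ZeroTestForArbitraryFamilies
import Pool.Agent.U265.VH.Abs

/-!
# Equality of periods at ALL algebraic points near a point of a curve, outside a set of Hausdorff dimension zero

Let `P` be a matrix of analytic functions on a connected open subset `U` of `ℂ`, for example the period matrix of a one-parameter
family of varieties over `ℚ̄`, or its parallel transport from an algebraic point. At an algebraic point `s` the equality of two
polynomials in the entries of `P(s)` (and in fixed numbers `ξ`, for example `π`), of degree at most `k` and with coefficients of size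
`T ^ k`, `T` the height of `s`, is to be decided. The file `ZeroTestForArbitraryFamilies` (helper543) shows that `O(log T)` digits of the
two numbers decide, and that all equalities follow from the relations between the functions, for all points of height at most `T` but
`T ^ ε`, for each number field.

**Theorem.** There is ONE set `E` of Hausdorff dimension ZERO such that for all `x ∈ U` outside of `E`, ALL number fields `K` in `ℂ`,
all `k` and all `σ > 0` there is `b` such that for all large `T` this is true WITHOUT EXCEPTION for the `K`-points `s` of height at most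
`T` with `|x - s| ≤ T ^ (-σ)`: two numbers as above are equal if and only if any two approximations of them with errors at most
`T ^ (-b)` differ by at most `2 T ^ (-b)`, and if and only if the two polynomials are equal on the fibre at `s` of the Zariski closure of
the graph of `P`.

The proof: covers by the disks of radius `T ^ (-σ)` around the undecided points (`Pool.Agent.U265.VH.abs_law`, from
`Pool.Agent.N84.MD.scales` of the starting library); there are countably many number fields in `ℂ`; a point decided for the height `T'`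
is decided for all smaller ones.
-/

set_option autoImplicit false

open NumberField

namespace Pool.Agent.Results.MP_bbe012_lc.DigitsNearAPoint

open Filter
open Pool.Agent.U543.GD (Family Height Inner)
open Pool.Agent.U543.FD (Coeff at_ Fibre)
open Pool.Agent.U543.TY

section
variable {X ι ι' : Type}

lemma height_mono (K : Type) [Field K] [NumberField K] {T T' : ℝ} (h : T ≤ T') : Height K T ⊆ Height K T' := by
  rintro x ⟨a, b, hb, h1, h2, h3⟩
  exact ⟨a, b, hb, h1.trans h, h2.trans h, h3⟩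

/-- more variables -/
lemma at_rename {K : Type} [Field K] (io : K →+* ℂ) {k k' : ℕ} (h : k ≤ k') (F : MvPolynomial ((ι × ι') ⊕ Fin k) (𝓞 K))
    (Y : Matrix ι ι' ℂ) (ξ : ℕ → ℂ) : at_ io (MvPolynomial.rename (Sum.map id (Fin.castLE h)) F) Y (fun a => ξ a) =
      at_ io F Y fun a => ξ a := by
  unfold at_
  rw [MvPolynomial.eval₂_rename]
  congr 1
  funext i
  rcases i with p | a
  · rfl
  · rfl

lemma bounded_rename {K : Type} [Field K] [NumberField K] {k k' : ℕ} (h : k ≤ k') {T : ℝ} (hT : 1 ≤ T)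
    {F : MvPolynomial ((ι × ι') ⊕ Fin k) (𝓞 K)} (hF : Bounded k T F) :
    Bounded k' T (MvPolynomial.rename (Sum.map id (Fin.castLE h)) F) := by
  classical
  have hinj : Function.Injective (Sum.map (id : ι × ι' → ι × ι') (Fin.castLE h)) :=
    Function.injective_id.sumMap (Fin.castLE_injective h)
  refine ⟨fun i => ?_, fun e => ?_⟩
  · by_cases hi : i ∈ Set.range (Sum.map (id : ι × ι' → ι × ι') (Fin.castLE h))
    · obtain ⟨j, rfl⟩ := hi
      rw [MvPolynomial.degreeOf_rename_of_injective hinj]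
      exact (hF.1 j).trans h
    · have h1 : i ∉ (MvPolynomial.rename (Sum.map (id : ι × ι' → ι × ι') (Fin.castLE h)) F).vars := by
        intro h2
        have h3 := MvPolynomial.vars_rename _ F h2
        rw [Finset.mem_image] at h3
        obtain ⟨j, -, rfl⟩ := h3
        exact hi ⟨j, rfl⟩
      rw [MvPolynomial.degreeOf_eq_sup]
      refine Finset.sup_le fun m hm => ?_
      have h0 : m i = 0 := by
        by_contra h0
        exact h1 ((MvPolynomial.mem_vars_iff_mem_support i).2 ⟨m, hm, Finsupp.mem_support_iff.2 h0⟩)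
      rw [h0]
      exact Nat.zero_le _
  · by_cases he : ∃ u : ((ι × ι') ⊕ Fin k) →₀ ℕ, u.mapDomain (Sum.map (id : ι × ι' → ι × ι') (Fin.castLE h)) = e
    · obtain ⟨u, rfl⟩ := he
      rw [MvPolynomial.coeff_rename_mapDomain _ hinj]
      exact (hF.2 u).trans (pow_le_pow_right₀ hT h)
    · rw [MvPolynomial.coeff_rename_eq_zero _ _ _ fun u hu => (he ⟨u, hu⟩).elim]
      have h0 : house ((0 : 𝓞 K) : K) = 0 := by
        have h1 := house_intCast (K := K) 0
        simpa using h1
      rw [h0]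
      positivity

lemma bounded_T {K : Type} [Field K] [NumberField K] {k : ℕ} {T T' : ℝ} (hT : 0 ≤ T) (h : T ≤ T')
    {F : MvPolynomial ((ι × ι') ⊕ Fin k) (𝓞 K)} (hF : Bounded k T F) : Bounded k T' F :=
  ⟨hF.1, fun e => (hF.2 e).trans (pow_le_pow_left₀ hT h _)⟩

/-- smaller polynomials, smaller heights and better approximations -/
lemma decided_mono {R : Subfield ℂ} {U : Set (X → ℂ)} {P : (X → ℂ) → Matrix ι ι' ℂ} {ξ : ℕ → ℂ} {k k' : ℕ} (hk : k ≤ k')
    (K : Type) [Field K] [NumberField K] (io : K →+* ℂ) {T T' δ δ' : ℝ} (hT : 1 ≤ T) (hTT : T ≤ T') (hδ : δ ≤ δ') {x : X → ℂ}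
    (h : Decided R U P ξ k' K io T' δ' x) : Decided R U P ξ k K io T δ x := by
  intro Φ₁ Φ₂ h1 h2 a₁ a₂ e1 e2
  obtain ⟨g1, g2⟩ := h _ _ (bounded_rename hk (hT.trans hTT) (bounded_T (by linarith) hTT h1))
    (bounded_rename hk (hT.trans hTT) (bounded_T (by linarith) hTT h2)) a₁ a₂ (by rw [at_rename]; exact e1.trans hδ)
    (by rw [at_rename]; exact e2.trans hδ)
  simp only [at_rename] at g1 g2
  refine ⟨⟨fun h3 => ?_, fun h3 => g1.2 (by linarith)⟩, g2⟩
  have h4 : a₁ - a₂ = (a₁ - at_ io Φ₁ (P x) fun a => ξ a) - (a₂ - at_ io Φ₂ (P x) fun a => ξ a) := by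
    rw [h3]
    ring
  rw [h4]
  refine (norm_sub_le _ _).trans ?_
  linarith

end

section
variable {X ι ι' : Type} [Fintype X]

lemma inner_mono (U : Set (X → ℂ)) {k k' : ℕ} (hk : 0 < k) (h : k ≤ k') : Inner U k ⊆ Inner U k' := by
  rintro z ⟨h1, h2⟩
  have h3 : (k : ℝ) ≤ k' := by exact_mod_cast h
  have h4 : (0 : ℝ) < k := by exact_mod_cast hk
  exact ⟨h1.trans h3, (Metric.ball_subset_ball (inv_anti₀ h4 h3)).trans h2⟩

lemma undecided_mono {R : Subfield ℂ} {U : Set (X → ℂ)} {P : (X → ℂ) → Matrix ι ι' ℂ} {ξ : ℕ → ℂ} {k k' : ℕ} (hk0 : 0 < k)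
    (hk : k ≤ k') (K : Type) [Field K] [NumberField K] (io : K →+* ℂ) {T T' δ δ' : ℝ} (hT : 1 ≤ T) (hTT : T ≤ T') (hδ : δ ≤ δ') :
    Undecided R U P ξ k K io T δ ⊆ Undecided R U P ξ k' K io T' δ' := by
  rintro s ⟨h1, h2, h3⟩
  exact ⟨fun j => height_mono K hTT (h1 j), inner_mono U hk0 hk h2, fun h => h3 (decided_mono hk K io hT hTT hδ h)⟩

end

/-- **Equality of periods is decided at all algebraic points near a point outside a set of Hausdorff dimension zero.** -/
theorem result :
    (∀ (R : Subfield ℂ) (X ι ι' : Type) [Fintype X] [DecidableEq X] [Nonempty X] [Fintype ι] [DecidableEq ι]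
      [Fintype ι'] [DecidableEq ι'] (U : Set (X → ℂ)) (P : (X → ℂ) → Matrix ι ι' ℂ) (ξ : ℕ → ℂ),
      Fintype.card X = 1 → Separated R → Family U P → DefinedOver R U P → (∀ a, ξ a ∈ R) →
      ∃ E : Set (X → ℂ), dimH E = 0 ∧ ∀ x ∈ U, x ∉ E → ∀ (K : Subfield ℂ) [NumberField K] (k : ℕ) (σ : ℝ), 0 < σ →
        ∃ b : ℕ, ∀ᶠ T : ℝ in atTop, ∀ s : X → K, (∀ j, s j ∈ Height K T) → (∀ j, ‖x j - (s j : ℂ)‖ ≤ T ^ (-σ)) →
          Decided R U P ξ k K K.subtype T (T ^ (-(b : ℝ))) fun j => (s j : ℂ)) ∧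
    Separated (Coeff fun _ : Fin 1 => (Real.pi : ℂ)) := by
  classical
  obtain ⟨hmain, hsep, hpi, -, -⟩ := ZeroTestForArbitraryFamilies.result
  refine ⟨fun R X ι ι' _ _ _ _ _ _ _ U P ξ hX hR h hd hξ => ?_, hsep 1 _ hpi⟩
  obtain ⟨E, hE, hlaw⟩ := Pool.Agent.U265.VH.abs_law
    (fun (_ : Unit) (K : Subfield ℂ) (_ : NumberField K) (k b : ℕ) (T : ℝ) =>
      Undecided R U P ξ (k + 1) K K.subtype T (T ^ (-(b : ℝ))))
    (fun _ K _ k b => ⟨max 1 (2 ^ b), fun T T' h1 h2 h3 => by
      have hT1 : 1 ≤ T := (le_max_left _ _).trans h1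
      have hb : 2 ^ b ≤ T := (le_max_right _ _).trans h1
      refine undecided_mono (Nat.succ_pos k) le_rfl K K.subtype hT1 h2 ?_
      rw [Real.rpow_neg (by linarith), Real.rpow_neg (by linarith), Real.rpow_natCast, Real.rpow_natCast]
      refine inv_anti₀ (pow_pos (by linarith) _) ?_
      calc T' ^ b ≤ (2 * T) ^ b := pow_le_pow_left₀ (by linarith) h3 _
        _ = 2 ^ b * T ^ b := mul_pow _ _ _
        _ ≤ T * T ^ b := mul_le_mul_of_nonneg_right hb (pow_nonneg (by linarith) _)
        _ = T ^ (b + 1) := by ring⟩)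
    (fun _ K _ k ε hε => by
      obtain ⟨k', hk1, hk2⟩ : ∃ k', k + 1 ≤ k' ∧ Module.finrank ℚ K ≤ k' :=
        ⟨max (k + 1) (Module.finrank ℚ K), le_max_left _ _, le_max_right _ _⟩
      obtain ⟨B, D, C, T₀, hC, hT₀, H⟩ := (hmain R X ι ι' U P ξ hR h hd hξ).1 k' ε hε
      refine ⟨B, D * C, T₀, fun T hT => ?_⟩
      have hT1 : 1 ≤ T := by linarith
      obtain ⟨-, h2, h3⟩ := H T hT K hk2 K.subtype
      have hsub : Undecided R U P ξ (k + 1) K K.subtype T (T ^ (-(B : ℝ))) ⊆
        Undecided R U P ξ k' K K.subtype T (T ^ (-(B : ℝ))) :=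
        undecided_mono (Nat.succ_pos k) hk1 K K.subtype hT1 le_rfl le_rfl
      rw [hX, Nat.sub_self, pow_zero, mul_one] at h3
      refine ⟨h2.subset hsub, le_trans ?_ h3⟩
      exact_mod_cast Set.ncard_le_ncard hsub h2)
  refine ⟨E, hE, fun x hx hxE K _ k σ hσ => ?_⟩
  obtain ⟨k', hk1, hk2, hin⟩ := Pool.Agent.U265.VH.inner_near h.isOpen hx k
  obtain ⟨m, rfl⟩ : ∃ m, k' = m + 1 := ⟨k' - 1, by omega⟩
  obtain ⟨b, h1⟩ := hlaw x hxE () K m σ hσ
  refine ⟨b, ?_⟩
  filter_upwards [h1, hin σ hσ, eventually_ge_atTop (1 : ℝ)] with T h2 h3 h4 s h5 h6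
  by_contra hcon
  exact h2 s ⟨h5, h3 _ h6, fun hd' => hcon (decided_mono hk1 K K.subtype h4 le_rfl le_rfl hd')⟩ h6

end Pool.Agent.Results.MP_bbe012_lc.DigitsNearAPoint
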