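import Pool.Agent.U543.XpEnd

/-!
# Equality and order of numbers built from real and imaginary parts of periods, and from exponentials of periods

A period is presented by its real and its imaginary part. The tests of `ZeroTestForPeriods` apply to polynomials in the
periods `P(s)` of one member of a family, and say nothing about the real and imaginary parts of these periods, that is about
polynomials in `P(s)` and the complex conjugate periods, nor about the order of real numbers of this kind. Here we consider
products of hyperelliptic curves `y² = ∏ (x - e_r)`, with branch points `e_r = a_r + i b_r`, `a_r`, `b_r` real elements of a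
number field, and all numbers

  `Φ(exp P(e), exp P̄(e), P(e), P̄(e), 2 π i)`,

`Φ` a polynomial over the integers of the number field, which contains `i`. (They include the polynomials in `2 Re P`,
`2 Im P` and `exp (2 Re P)`.) For all `(a, b)` of height at most `T` outside few hypersurfaces and all `Φ₁`, `Φ₂` of bounded
degree with coefficients of size `T ^ O(1)`: the equality of the two numbers, and their order if they are real, are decided
by ANY approximations with `O(log T)` digits; and they are equal if and only if `Φ₁ = Φ₂` as functions of free variables for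
the exponentials and of the solutions of the Legendre relations, a condition on polynomials over the number field.

The main new point is that the exponentials of all the periods (and of the conjugate ones) are algebraically independent
over the field generated by the periods and the branch points, by the unipotent monodromy, and that near relations with
exponentials at algebraic points come from these functional relations.
-/

namespace Pool.Agent.Results.MP_bbe012_lc.RealPartsAndExponentials

open Filter Pool.Agent Pool.Agent.U543.XD

/-- Let `n i` be even numbers, `i ∈ ι`, `X` the set of the pairs `(i, r)`, `r ≤ n i`. For `e` in `Conf n` (the `e i r` have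
increasing real parts for every `i`) let `P(e)` be the period matrices of the curves `y² = ∏ (x - e i r)`. For a polynomial
`Φ` over the integers of the number field `K ⊆ ℂ` (embedding `io`), let `num io Φ e = Φ(exp P, exp P̄, P, P̄, 2 π i)`, the
exponentials being taken entry by entry. `Leg n e` is the set of the `(Y, μ)`, `μ ≠ 0`, which satisfy the Legendre relations
of the curves and the conjugate curves, with `2 π i` replaced by `μ`. `Decided n k K io T δ e` means: for all `Φ₁`, `Φ₂` of
degree at most `k` in each variable, with conjugates of the coefficients at most `T ^ k`, the numbers `z_j = num io Φ_j e`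
satisfy: if `|a_j - z_j| ≤ δ`, then `z₁ = z₂` if and only if `|a₁ - a₂| ≤ 2 δ`, and, for real `z₁`, `z₂`, `z₁ < z₂` if and
only if `Re a₁ + 2 δ < Re a₂`; and `z₁ = z₂` if and only if `Φ₁(Z, Y, μ) = Φ₂(Z, Y, μ)` for all matrices `Z` and all
`(Y, μ)` in `Leg n e`. `Bad n k K io T δ` is the set of the pairs `(a, b)` of elements of `K ^ X` with real coordinates of
height at most `T`, such that `e = a + i b` is in `Conf n`, of norm at most `k` and at distance at least `1 / k` from the
complement of `Conf n`, and not `Decided n k K io T δ e`.

(1) For every `k` and `ε > 0` there are `B`, `D`, `C` such that for all large `T` and all number fields `K` of degree at most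
`k`, embedded in `ℂ` and containing `i`, the set `Bad n k K io T (T ^ (-B))` is covered by `C T ^ ε` hypersurfaces of degree
at most `D`, and has at most `D C T ^ ε N ^ (2 |X| - 1)` elements, `N` being the number of real elements of `K` of height at
most `T`.
(2) For every function `v → ∞`, however slowly, there is `ω → ∞` such that for all large `T`, `k = ω T`, and all `K` of
degree at most `k` containing `i`, the set `Bad n k K io T (T ^ (-v T))` is covered by `T ^ (1 / k)` hypersurfaces of degree
at most `T ^ (1 / k)`, and has at most `T ^ (2 / k) N ^ (2 |X| - 1)` elements. -/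
theorem result (ι : Type) [Fintype ι] [DecidableEq ι] [Nonempty ι] (n : ι → ℕ) (hn : ∀ i, Even (n i)) :
    (∀ (k : ℕ) (ε : ℝ), 0 < ε → ∃ (B D : ℕ) (C T₀ : ℝ), 0 ≤ C ∧ 2 ≤ T₀ ∧ ∀ T, T₀ ≤ T →
      ∀ (K : Type) [Field K] [NumberField K], Module.finrank ℚ K ≤ k → ∀ (io : K →+* ℂ), Complex.I ∈ io.range →
        Y124.Cov D ⌊C * T ^ ε⌋₊
          ((fun (u : (Σ i, Fin (n i + 1)) ⊕ (Σ i, Fin (n i + 1)) → K) j => io (u j)) ''
            Bad n k K io T (T ^ (-(B : ℝ)))) ∧
        (Bad n k K io T (T ^ (-(B : ℝ)))).Finite ∧
        ((Bad n k K io T (T ^ (-(B : ℝ)))).ncard : ℝ) ≤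
          D * C * T ^ ε * ((RHeight K io T).ncard : ℝ) ^ (2 * Fintype.card (Σ i, Fin (n i + 1)) - 1)) ∧
    ∀ v : ℝ → ℝ, Tendsto v atTop atTop →
      ∃ (ω : ℝ → ℕ) (T₀ : ℝ), Tendsto ω atTop atTop ∧ Monotone ω ∧ ∀ T, T₀ ≤ T → 0 < ω T ∧
        ∀ (K : Type) [Field K] [NumberField K], Module.finrank ℚ K ≤ ω T → ∀ (io : K →+* ℂ),
          Complex.I ∈ io.range →
          Y124.Cov ⌊T ^ ((ω T : ℝ)⁻¹)⌋₊ ⌊T ^ ((ω T : ℝ)⁻¹)⌋₊
            ((fun (u : (Σ i, Fin (n i + 1)) ⊕ (Σ i, Fin (n i + 1)) → K) j => io (u j)) ''
              Bad n (ω T) K io T (T ^ (-v T))) ∧
          (Bad n (ω T) K io T (T ^ (-v T))).Finite ∧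
          ((Bad n (ω T) K io T (T ^ (-v T))).ncard : ℝ) ≤
            T ^ (2 * (ω T : ℝ)⁻¹) * ((RHeight K io T).ncard : ℝ) ^ (2 * Fintype.card (Σ i, Fin (n i + 1)) - 1) :=
  ⟨fun k ε hε => main_fix n hn k ε hε, fun v hv => main_grow n hn v hv⟩

end Pool.Agent.Results.MP_bbe012_lc.RealPartsAndExponentials
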