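import Pool.Agent.U543.TyFin
import Pool.Agent.U543.TyLin
import Pool.Agent.U543.TyMeas

/-!
# Two tests for the equality of periods in arbitrary families

Let `P` be a matrix of analytic functions, for example the period matrix of a family of varieties over `ℚ̄` with
parameters `x`, or its parallel transport from a point `x₀`: a solution of the Gauss-Manin system with the initial value
`1`. The polynomials with algebraic coefficients in the entries of `P(s)`, for an algebraic point `s`, are numbers of which
the equality has to be decided. Two of them, given by polynomials `Φ₁`, `Φ₂`, are equal if this follows from the relations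
between the functions, that is if `Φ₁ = Φ₂` on the fibre at `s` of the Zariski closure of the graph of `P`. We show that for
all points `s` of height at most `T` outside few hypersurfaces, and all `Φ₁`, `Φ₂` of bounded degree with coefficients of
size `T ^ O(1)`, they are not equal otherwise, and that moreover numbers which are not equal differ by at least `T ^ (-B)`:
the equality is decided by ANY approximations of the two numbers with a number of digits which is linear in the length of
the input. The only assumptions are that the functions which are algebraic over `ℂ(x)` in `ℂ(x, P)` are rational, and that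
the partial derivatives of `P` at one point are in a field `R`, such that fixed linear forms over `R` cannot be nonzero and
very small at algebraic integers (in particular `R = ℚ̄` or `R = ℚ̄(π)`).
-/

namespace Pool.Agent.Results.MP_bbe012_lc.ZeroTestForArbitraryFamilies

open Filter Pool.Agent.U543.TY
open Pool.Agent.U543.GD (Family Height Covered)
open Pool.Agent.U543.FD (Coeff)

/-- Let `R` be a subfield of `ℂ` which contains the algebraic numbers and is `Separated` (the values of a linear form with
fixed coefficients in `R` at integers of number fields of degree at most `m` with conjugates at most `T` are zero or of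
norm at least `T ^ (-κ)`), let `P` be an analytic matrix on the connected open subset `U` of `ℂ ^ X` such that the elements
of `ℂ(x, P)` algebraic over `ℂ(x)` are rational functions (`Family`), with all partial derivatives of all entries at some
point of `U` over `R` in `R` (`DefinedOver`), and let `ξ 0, ξ 1, …` be in `R`. `Undecided R U P ξ k K io T δ` is the set of
the points `s` of `U` with coordinates in `K` of height at most `T`, of norm at most `k` and at distance at least `1 / k`
from the complement of `U`, such that for some polynomials `Φ₁`, `Φ₂` in the entries of the matrix and in `ξ 0, …, ξ (k - 1)`,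
of degree at most `k` in each variable, with coefficients in the integers of `K` with conjugates at most `T ^ k`, and some
approximations `a₁`, `a₂` of the numbers `z_j = Φ_j(P(s), ξ)` with errors at most `δ`, the three conditions `z₁ = z₂`,
`|a₁ - a₂| ≤ 2 δ`, and `Φ₁ = Φ₂` on the fibre at `s` of the Zariski closure over `R` of the graph of `P`, are not equivalent.

(1) For every `k` and `ε > 0` there are `B`, `D`, `C` such that for all large `T` and all number fields `K` of degree at
most `k`, embedded in `ℂ`, the set of undecided points with precision `T ^ (-B)` is covered by `C T ^ ε` hypersurfaces of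
degree at most `D`, and has at most `D C T ^ ε N ^ (|X| - 1)` elements, `N` being the number of elements of `K` of height at
most `T`.
(2) For every function `v → ∞`, however slowly, there is `ω → ∞` such that for all large `T`, `k = ω T`, and all `K` of
degree at most `k`, the set of undecided points with precision `T ^ (-v T)` is covered by `T ^ (1 / k)` hypersurfaces of
degree at most `T ^ (1 / k)`, and has at most `T ^ (1 / k) N ^ (|X| - 1)` elements.
(3) The field generated by the algebraic numbers and numbers `Θ a` with a measure of algebraic independence (`Meas`) which is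
polynomial in the height for each bound for the degree is `Separated`; for example `ℚ̄` (no numbers) and `ℚ̄(π)`.
(4) Analytic solutions on open sets `U` of linear systems `q ∂_j Y = A_j Y` over `R[x]`, with `q ≠ 0` on `U` and an initial
value over `R` at a point of `U` over `R`, are `DefinedOver R U`. -/
theorem result :
    (∀ (R : Subfield ℂ) (X ι ι' : Type) [Fintype X] [DecidableEq X] [Nonempty X] [Fintype ι] [DecidableEq ι]
      [Fintype ι'] [DecidableEq ι'] (U : Set (X → ℂ)) (P : (X → ℂ) → Matrix ι ι' ℂ) (ξ : ℕ → ℂ),
      Separated R → Family U P → DefinedOver R U P → (∀ a, ξ a ∈ R) →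
      (∀ (k : ℕ) (ε : ℝ), 0 < ε → ∃ (B D : ℕ) (C T₀ : ℝ), 0 ≤ C ∧ 2 ≤ T₀ ∧ ∀ T, T₀ ≤ T →
        ∀ (K : Type) [Field K] [NumberField K], Module.finrank ℚ K ≤ k → ∀ io : K →+* ℂ,
          Covered D ⌊C * T ^ ε⌋₊
            ((fun (s : X → K) j => io (s j)) '' Undecided R U P ξ k K io T (T ^ (-(B : ℝ)))) ∧
          (Undecided R U P ξ k K io T (T ^ (-(B : ℝ)))).Finite ∧
          ((Undecided R U P ξ k K io T (T ^ (-(B : ℝ)))).ncard : ℝ) ≤
            D * C * T ^ ε * ((Height K T).ncard : ℝ) ^ (Fintype.card X - 1)) ∧
      (∀ v : ℝ → ℝ, Tendsto v atTop atTop →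
        ∃ (ω : ℝ → ℕ) (T₀ : ℝ), Tendsto ω atTop atTop ∧ Monotone ω ∧ ∀ T, T₀ ≤ T → 0 < ω T ∧
          ∀ (K : Type) [Field K] [NumberField K], Module.finrank ℚ K ≤ ω T → ∀ io : K →+* ℂ,
            Covered ⌊T ^ ((ω T : ℝ)⁻¹)⌋₊ ⌊T ^ ((ω T : ℝ)⁻¹)⌋₊
              ((fun (s : X → K) j => io (s j)) '' Undecided R U P ξ (ω T) K io T (T ^ (-v T))) ∧
            (Undecided R U P ξ (ω T) K io T (T ^ (-v T))).Finite ∧
            ((Undecided R U P ξ (ω T) K io T (T ^ (-v T))).ncard : ℝ) ≤
              T ^ ((ω T : ℝ)⁻¹) * ((Height K T).ncard : ℝ) ^ (Fintype.card X - 1))) ∧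
    (∀ (r : ℕ) (Θ : Fin r → ℂ), Meas Θ → Separated (Coeff Θ)) ∧ Meas (fun _ : Fin 1 => (Real.pi : ℂ)) ∧
    Meas (Fin.elim0 : Fin 0 → ℂ) ∧
    ∀ (R : Subfield ℂ) (X ι ι' : Type) [Fintype X] [DecidableEq X] [Fintype ι] [DecidableEq ι] (U : Set (X → ℂ))
      (Y : (X → ℂ) → Matrix ι ι' ℂ), IsOpen U → (∀ i j, AnalyticOnNhd ℂ (fun x => Y x i j) U) →
      LinearSystem R U Y → DefinedOver R U Y := by
  refine ⟨fun R X ι ι' _ _ _ _ _ _ _ U P ξ hR h hd hξ => ⟨fun k ε hε => main_fix hR h hd ξ hξ k ε hε,
    fun v hv => main_omega hR h hd ξ hξ v hv⟩, fun r Θ hΘ => separated_of hΘ, meas_pi, ?_,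
    fun R X ι ι' _ _ _ _ U Y hU hY h => definedOver_of_linear hU hY h⟩
  intro D
  refine ⟨0, 1, one_pos, fun G hG _ H hH _ => ?_⟩
  obtain ⟨a, rfl⟩ := MvPolynomial.C_surjective (Fin 0) G
  rw [MvPolynomial.aeval_C, Real.rpow_zero, one_mul]
  have ha : a ≠ 0 := fun h0 => hG (by rw [h0, map_zero])
  rw [eq_intCast, Complex.norm_intCast]
  exact_mod_cast Int.one_le_abs ha

end Pool.Agent.Results.MP_bbe012_lc.ZeroTestForArbitraryFamilies
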