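import Pool.Agent.U543.NrFin
import Pool.Agent.Y890.SM.Inst

/-!
# Two tests for the equality of periods of curves

Let `F` be a family with symplectic monodromy, for example all products of hyperelliptic curves `y² = ∏ (x - e_r)` with
algebraic branch points `e_r` as parameters. The polynomials with algebraic coefficients in the periods `P(s)` of a member
over an algebraic point `s` and in `2 π i` are periods in the sense of Kontsevich and Zagier. Two of them, given by
polynomials `Φ₁`, `Φ₂`, are equal if `Φ₁ = Φ₂` on the torsor of the family at `s`, which is a condition on polynomials over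
a number field; the conjecture on periods says that for generic `s` they are not equal otherwise. We show that this is true
for all points `s` of height at most `T` outside few hypersurfaces, and all `Φ₁`, `Φ₂` of bounded degree with coefficients
of size `T ^ O(1)`, and that moreover numbers which are not equal differ by at least `T ^ (-B)`: so the equality is decided
by ANY approximations of the two numbers with `O(log T)` digits, that is with a number of digits which is linear in the
length of the input `(s, Φ₁, Φ₂)`.
-/

namespace Pool.Agent.Results.MP_bbe012_lc.ZeroTestForPeriods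

open Filter Pool.Agent Pool.Agent.Y890.MV Pool.Agent.Y890.SM Pool.Agent.U543.NR

/-- Let `F` be a family with symplectic monodromy over an open subset `U` of `ℂ ^ X` (`SympFam`): matrices `P i x` of
analytic functions (periods), with `P i * Q i * (P i)ᵀ = (2 π i) ^ w i J i` for alternating matrices `Q i` over `ℚ̄[x]` and
`J i` over `ℚ`, the relations of which over `ℂ[x]` are invariant under a set of rational matrices (monodromy) which is
Zariski dense in the product of the symplectic groups of the `J i`; `torsor x` is the set of the `(Y, μ)`, `μ ≠ 0`, with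
`Y i * Q i(x) * (Y i)ᵀ = μ ^ w i J i`. `Undecided F k K io T δ` is the set of the points `s` of `U` with coordinates in
`K` of height at most `T`, of norm at most `k` and at distance at least `1 / k` from the complement of `U`, such that for
some polynomials `Φ₁`, `Φ₂` in the entries of the matrices and in `μ`, of degree at most `k` in each variable, with
coefficients in the integers of `K` with conjugates at most `T ^ k`, and some approximations `a₁`, `a₂` of the numbers
`z_j = Φ_j(P(s), 2 π i)` with errors at most `δ`, the three conditions `z₁ = z₂`, `|a₁ - a₂| ≤ 2 δ`, and `Φ₁ = Φ₂` on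
`torsor s` are not equivalent.

(1) For every `k` and `ε > 0` there are `B`, `D`, `C` such that for all large `T` and all number fields `K` of degree at
most `k`, embedded in `ℂ`, the set `Undecided F k K io T (T ^ (-B))` is covered by `C T ^ ε` hypersurfaces of degree at most
`D`, and has at most `D C T ^ ε N ^ (|X| - 1)` elements, `N` being the number of elements of `K` of height at most `T`.
(2) For every function `v → ∞`, however slowly, there is `ω → ∞` such that for all large `T`, `k = ω T`, and all `K` of
degree at most `k`, the set `Undecided F k K io T (T ^ (-v T))` is covered by `T ^ (1 / k)` hypersurfaces of degree at most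
`T ^ (1 / k)`, and has at most `T ^ (1 / k) N ^ (|X| - 1)` elements.
(3) The period matrices of all products of hyperelliptic curves `y² = ∏ (x - e i r)`, `r ≤ n i`, `n i` even, with branch
points `e i r` of increasing real parts, are such a family, with `w i = 1`. -/
theorem result :
    (∀ (X : Type) [Fintype X] [DecidableEq X] [Nonempty X] (ι : Type) [Fintype ι] [DecidableEq ι] (n : ι → ℕ)
      (F : SympFam X n),
      (∀ (k : ℕ) (ε : ℝ), 0 < ε → ∃ (B D : ℕ) (C T₀ : ℝ), 0 ≤ C ∧ 2 ≤ T₀ ∧ ∀ T, T₀ ≤ T →
        ∀ (K : Type) [Field K] [NumberField K], Module.finrank ℚ K ≤ k → ∀ io : K →+* ℂ,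
          Y124.Cov D ⌊C * T ^ ε⌋₊
            ((fun (s : X → K) j => io (s j)) '' Undecided F k K io T (T ^ (-(B : ℝ)))) ∧
          (Undecided F k K io T (T ^ (-(B : ℝ)))).Finite ∧
          ((Undecided F k K io T (T ^ (-(B : ℝ)))).ncard : ℝ) ≤
            D * C * T ^ ε * ({x : K | Y120.HtLe K T x}.ncard : ℝ) ^ (Fintype.card X - 1)) ∧
      (∀ v : ℝ → ℝ, Tendsto v atTop atTop →
        ∃ (ω : ℝ → ℕ) (T₀ : ℝ), Tendsto ω atTop atTop ∧ Monotone ω ∧ ∀ T, T₀ ≤ T → 0 < ω T ∧
          ∀ (K : Type) [Field K] [NumberField K], Module.finrank ℚ K ≤ ω T → ∀ io : K →+* ℂ,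
            Y124.Cov ⌊T ^ ((ω T : ℝ)⁻¹)⌋₊ ⌊T ^ ((ω T : ℝ)⁻¹)⌋₊
              ((fun (s : X → K) j => io (s j)) '' Undecided F (ω T) K io T (T ^ (-v T))) ∧
            (Undecided F (ω T) K io T (T ^ (-v T))).Finite ∧
            ((Undecided F (ω T) K io T (T ^ (-v T))).ncard : ℝ) ≤
              T ^ ((ω T : ℝ)⁻¹) * ({x : K | Y120.HtLe K T x}.ncard : ℝ) ^ (Fintype.card X - 1))) ∧
    ∀ (ι : Type) [Fintype ι] [DecidableEq ι] (n : ι → ℕ), (∀ i, Even (n i)) →
      ∃ F : SympFam (Σ i, Fin (n i + 1)) n, F.U = Y890.HE.Conf n ∧ (∀ i, F.w i = 1) ∧
        ∀ i e, F.P i e = Y890.HE.pm n e i :=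
  ⟨fun _ _ _ _ _ _ _ _ F => ⟨fun k ε hε => main_fix F k ε hε, fun v hv => main_omega F v hv⟩,
    fun _ _ _ n hn => ⟨hyp n hn, rfl, fun _ => rfl, fun _ _ => rfl⟩⟩

end Pool.Agent.Results.MP_bbe012_lc.ZeroTestForPeriods
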